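import Pool.Agent.L0h87.HA.Grp

set_option autoImplicit false

/-!
# From distribution functions to weak convergence; the theorem of Erdős and Kac for odd integers
-/

namespace Pool.Agent.L0h87.HA

open Finset Filter Topology MeasureTheory
open scoped BoundedContinuousFunction

/-- the uniform law of the values `X n`, `n` in `S`, on the real line -/
noncomputable def ur (S : Finset ℕ) (X : ℕ → ℝ) : Measure ℝ :=
  ∑ n ∈ S, ENNReal.ofReal (1 / S.card) • Measure.dirac (X n)

theorem ur_integral (S : Finset ℕ) (X : ℕ → ℝ) (Ψ : ℝ → ℝ) :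
    ∫ x, Ψ x ∂(ur S X) = (∑ n ∈ S, Ψ (X n)) / S.card := by
  unfold ur
  rw [integral_finsetSum_measure, Finset.sum_div]
  · refine Finset.sum_congr rfl fun n hn => ?_
    rw [integral_smul_measure, integral_dirac, ENNReal.toReal_ofReal (by positivity), smul_eq_mul]
    ring
  · intro n _
    refine Integrable.smul_measure ?_ ENNReal.ofReal_ne_top
    exact integrable_dirac (by simp [enorm_lt_top])

theorem ur_apply (S : Finset ℕ) (X : ℕ → ℝ) {B : Set ℝ} (hB : MeasurableSet B) :
    ur S X B = ∑ n ∈ S, ENNReal.ofReal (1 / S.card) * B.indicator 1 (X n) := by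
  unfold ur
  rw [Measure.finsetSum_apply]
  refine Finset.sum_congr rfl fun n _ => ?_
  rw [Measure.smul_apply, Measure.dirac_apply' _ hB, smul_eq_mul]

open Classical in
theorem ur_toReal (S : Finset ℕ) (X : ℕ → ℝ) {B : Set ℝ} (hB : MeasurableSet B) :
    (ur S X B).toReal = ((S.filter (fun n => X n ∈ B)).card : ℝ) / S.card := by
  rw [ur_apply S X hB, ENNReal.toReal_sum, Finset.card_filter]
  · push_cast
    rw [Finset.sum_div]
    refine Finset.sum_congr rfl fun n hn => ?_
    by_cases h : X n ∈ B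
    · rw [Set.indicator_of_mem h, if_pos h]
      rw [Pi.one_apply, mul_one, ENNReal.toReal_ofReal (by positivity)]
    · rw [Set.indicator_of_notMem h, if_neg h]
      simp
  · intro n _
    by_cases h : X n ∈ B
    · rw [Set.indicator_of_mem h]
      simp
    · rw [Set.indicator_of_notMem h]
      simp

theorem ur_prob {S : Finset ℕ} (X : ℕ → ℝ) (hS : S.Nonempty) : IsProbabilityMeasure (ur S X) := by
  refine ⟨?_⟩
  have h0 : (S.card : ℝ) ≠ 0 := by
    have := hS.card_pos
    exact_mod_cast this.ne'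
  rw [ur_apply S X MeasurableSet.univ]
  have : ∑ n ∈ S, ENNReal.ofReal (1 / S.card) * (Set.univ : Set ℝ).indicator 1 (X n) =
      ∑ n ∈ S, ENNReal.ofReal (1 / S.card) := by
    refine Finset.sum_congr rfl fun n _ => ?_
    simp
  rw [this, ← ENNReal.ofReal_sum_of_nonneg (fun _ _ => by positivity), Finset.sum_const, nsmul_eq_mul,
    mul_one_div_cancel h0, ENNReal.ofReal_one]

open Classical in
/-- convergence of the distribution functions implies weak convergence -/
theorem weak_of_cdf {S : ℕ → Finset ℕ} {X : ℕ → ℕ → ℝ} {γ : Measure ℝ} [IsProbabilityMeasure γ]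
    (hS : ∀ᶠ N in atTop, (S N).Nonempty)
    (h : ∀ y : ℝ, Tendsto (fun N => (((S N).filter (fun n => X N n ≤ y)).card : ℝ) / (S N).card) atTop
      (𝓝 (γ (Set.Iic y)).toReal)) (Ψ : ℝ →ᵇ ℝ) :
    Tendsto (fun N => (∑ n ∈ S N, Ψ (X N n)) / (S N).card) atTop (𝓝 (∫ x, Ψ x ∂γ)) := by
  have hprob : ∀ N, ∃ ρ : ProbabilityMeasure ℝ, (S N).Nonempty → (ρ : Measure ℝ) = ur (S N) (X N) := by
    intro N
    by_cases hN : (S N).Nonempty
    · exact ⟨⟨ur (S N) (X N), ur_prob (X N) hN⟩, fun _ => rfl⟩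
    · exact ⟨⟨Measure.dirac 0, inferInstance⟩, fun h' => absurd h' hN⟩
  choose ρ hρ using hprob
  set g : ProbabilityMeasure ℝ := ⟨γ, inferInstance⟩ with hg
  have hIic : ∀ y : ℝ, Tendsto (fun N => ρ N (Set.Iic y)) atTop (𝓝 (g (Set.Iic y))) := by
    intro y
    rw [← NNReal.tendsto_coe]
    refine (h y).congr' ?_
    filter_upwards [hS] with N hN
    have e : ((ρ N (Set.Iic y) : NNReal) : ℝ) = ((ρ N : Measure ℝ) (Set.Iic y)).toReal := rfl
    rw [e, hρ N hN, ur_toReal _ _ measurableSet_Iic]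
    rfl
  have hlim : Tendsto ρ atTop (𝓝 g) := by
    refine IsPiSystem.tendsto_probabilityMeasure_of_tendsto_of_mem (S := {s | ∃ a b : ℝ, s = Set.Ioc a b})
      ?_ ?_ ?_ ?_
    · rintro s ⟨a, b, rfl⟩ t ⟨c, e, rfl⟩ -
      exact ⟨_, _, Set.Ioc_inter_Ioc⟩
    · rintro s ⟨a, b, rfl⟩
      exact measurableSet_Ioc
    · intro u hu x hx
      obtain ⟨ε, hε, hball⟩ := Metric.isOpen_iff.1 hu x hx
      refine ⟨Set.Ioc (x - ε / 2) (x + ε / 2), ⟨_, _, rfl⟩, ?_, fun z hz => hball ?_⟩
      · exact Ioc_mem_nhds (by linarith) (by linarith)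
      · rw [Metric.mem_ball, Real.dist_eq, abs_lt]
        exact ⟨by linarith [hz.1], by linarith [hz.2]⟩
    · rintro s ⟨a, b, rfl⟩
      rcases le_or_gt b a with hab | hab
      · rw [Set.Ioc_eq_empty (not_lt.2 hab)]
        simp
      · have hdiff : ∀ μ : ProbabilityMeasure ℝ, μ (Set.Ioc a b) = μ (Set.Iic b) - μ (Set.Iic a) := by
          intro μ
          have h1 : (μ : Measure ℝ) (Set.Ioc a b) = (μ : Measure ℝ) (Set.Iic b) - (μ : Measure ℝ) (Set.Iic a) := by
            rw [show Set.Ioc a b = Set.Iic b \ Set.Iic a by ext z; simp [and_comm], measure_diff (Set.Iic_subset_Iic.2 hab.le) measurableSet_Iic.nullMeasurableSet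
              (measure_ne_top _ _)]
          have h2 : μ (Set.Ioc a b) = ((μ : Measure ℝ) (Set.Ioc a b)).toNNReal := rfl
          have h3 : μ (Set.Iic b) = ((μ : Measure ℝ) (Set.Iic b)).toNNReal := rfl
          have h4 : μ (Set.Iic a) = ((μ : Measure ℝ) (Set.Iic a)).toNNReal := rfl
          rw [h2, h3, h4, h1, ENNReal.toNNReal_sub (measure_ne_top _ _)]
        rw [hdiff g]
        refine ((hIic b).sub (hIic a)).congr fun N => (hdiff (ρ N)).symm
  have h7 := (ProbabilityMeasure.tendsto_iff_forall_integral_tendsto.1 hlim) Ψ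
  refine h7.congr' ?_
  filter_upwards [hS] with N hN
  rw [hρ N hN, ur_integral]

end Pool.Agent.L0h87.HA
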