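import Mathlib

set_option autoImplicit false

/-!
# The theorem of Erdős and Kac for the odd integers up to `N`
-/

namespace Pool.Agent.L0h87.HA

open Finset Filter Topology MeasureTheory ProbabilityTheory

/-- the number of prime factors, normalised with `N` -/
noncomputable def nom (N n : ℕ) : ℝ :=
  ((n.primeFactors.card : ℝ) - Real.log (Real.log N)) / Real.sqrt (Real.log (Real.log N))

theorem cdf_cont : Continuous (fun x => (gaussianReal 0 1).real (Set.Iic x)) := by
  have hn := nullSingletonClass_gaussianReal (μ := 0) (v := 1) (by norm_num)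
  have h : Continuous (cdf (gaussianReal 0 1)) := by
    rw [continuous_iff_continuousAt]
    intro x
    have h1 : (cdf (gaussianReal 0 1)).measure {x} = 0 := by
      rw [measure_cdf]; exact measure_singleton x
    rw [StieltjesFunction.measure_singleton, ENNReal.ofReal_eq_zero] at h1
    have h2 : Function.leftLim (cdf (gaussianReal 0 1)) x = cdf (gaussianReal 0 1) x :=
      le_antisymm ((monotone_cdf _).leftLim_le le_rfl) (by linarith)
    rw [(monotone_cdf _).continuousAt_iff_leftLim_eq_rightLim, h2, (cdf _).rightLim_eq]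
  refine h.congr fun x => ?_
  rw [cdf_eq_real]

theorem half_tendsto : Tendsto (fun N : ℕ => (N - 1) / 2) atTop atTop := by
  rw [tendsto_atTop]
  intro b
  filter_upwards [eventually_ge_atTop (2 * b + 1)] with N hN
  omega

/-- the double logarithm -/
noncomputable def l2 (N : ℕ) : ℝ := Real.log (Real.log N)

theorem l2_tendsto : Tendsto l2 atTop atTop :=
  Real.tendsto_log_atTop.comp (Real.tendsto_log_atTop.comp tendsto_natCast_atTop_atTop)

theorem l2_diff : Tendsto (fun N : ℕ => l2 N - l2 ((N - 1) / 2)) atTop (𝓝 0) := by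
  have hl : Tendsto (fun N : ℕ => Real.log N) atTop atTop :=
    Real.tendsto_log_atTop.comp tendsto_natCast_atTop_atTop
  have h1 : Tendsto (fun N : ℕ => Real.log 4 / (Real.log N - Real.log 4)) atTop (𝓝 0) := by
    refine Tendsto.const_div_atTop ?_ _
    exact tendsto_atTop_add_const_right _ _ hl
  refine squeeze_zero' ?_ ?_ h1
  · filter_upwards [eventually_ge_atTop 100] with N hN
    have hM : (49 : ℕ) ≤ (N - 1) / 2 := by omega
    have hM' : ((49 : ℕ) : ℝ) ≤ (((N - 1) / 2 : ℕ) : ℝ) := by exact_mod_cast hM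
    have hMN : (((N - 1) / 2 : ℕ) : ℝ) ≤ N := by exact_mod_cast (by omega : (N - 1) / 2 ≤ N)
    have h2 : 0 < Real.log (((N - 1) / 2 : ℕ) : ℝ) := Real.log_pos (by push_cast at hM'; linarith)
    unfold l2
    rw [sub_nonneg]
    exact Real.log_le_log h2 (Real.log_le_log (by push_cast at hM'; linarith) hMN)
  · filter_upwards [eventually_ge_atTop 100] with N hN
    have hN' : (100 : ℝ) ≤ N := by exact_mod_cast hN
    have hM : N ≤ 4 * ((N - 1) / 2) := by omega
    have hM' : (N : ℝ) / 4 ≤ (((N - 1) / 2 : ℕ) : ℝ) := by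
      rw [div_le_iff₀ (by norm_num)]
      have : (N : ℝ) ≤ ((4 * ((N - 1) / 2) : ℕ) : ℝ) := by exact_mod_cast hM
      push_cast at this ⊢
      linarith
    have hl4 : Real.log N - Real.log 4 ≤ Real.log (((N - 1) / 2 : ℕ) : ℝ) := by
      rw [← Real.log_div (by linarith) (by norm_num)]
      exact Real.log_le_log (by linarith) hM'
    have hpos : 0 < Real.log N - Real.log 4 := by
      rw [← Real.log_div (by linarith) (by norm_num)]
      exact Real.log_pos (by linarith)
    have hposM : 0 < Real.log (((N - 1) / 2 : ℕ) : ℝ) := by linarith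
    have hposN : 0 < Real.log N := Real.log_pos (by linarith)
    have h4 : 0 < Real.log 4 := Real.log_pos (by norm_num)
    unfold l2
    rw [← Real.log_div hposN.ne' hposM.ne']
    have h5 : Real.log N / Real.log (((N - 1) / 2 : ℕ) : ℝ) ≤ Real.log N / (Real.log N - Real.log 4) :=
      div_le_div_of_nonneg_left hposN.le hpos hl4
    have h6 : Real.log N / (Real.log N - Real.log 4) = 1 + Real.log 4 / (Real.log N - Real.log 4) := by
      field_simp
      ring
    have h7 := Real.log_le_sub_one_of_pos (div_pos hposN hposM)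
    linarith

/-- the shifted threshold -/
noncomputable def thr (y : ℝ) (N : ℕ) : ℝ :=
  (l2 N - l2 ((N - 1) / 2) + y * Real.sqrt (l2 N)) / Real.sqrt (l2 ((N - 1) / 2))

theorem thr_tendsto (y : ℝ) : Tendsto (thr y) atTop (𝓝 y) := by
  have hM : Tendsto (fun N : ℕ => l2 ((N - 1) / 2)) atTop atTop := l2_tendsto.comp half_tendsto
  have hs : Tendsto (fun N : ℕ => Real.sqrt (l2 ((N - 1) / 2))) atTop atTop :=
    Real.tendsto_sqrt_atTop.comp hM
  have h1 : Tendsto (fun N : ℕ => (l2 N - l2 ((N - 1) / 2)) / Real.sqrt (l2 ((N - 1) / 2))) atTop (𝓝 0) :=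
    l2_diff.div_atTop hs
  have h2 : Tendsto (fun N : ℕ => l2 N / l2 ((N - 1) / 2)) atTop (𝓝 1) := by
    have h3 : Tendsto (fun N : ℕ => 1 + (l2 N - l2 ((N - 1) / 2)) / l2 ((N - 1) / 2)) atTop (𝓝 (1 + 0)) :=
      (l2_diff.div_atTop hM).const_add 1
    rw [add_zero] at h3
    refine h3.congr' ?_
    filter_upwards [hM.eventually (eventually_gt_atTop 0)] with N hN
    field_simp
    ring
  have h4 : Tendsto (fun N : ℕ => Real.sqrt (l2 N / l2 ((N - 1) / 2))) atTop (𝓝 (Real.sqrt 1)) :=
    (Real.continuous_sqrt.tendsto 1).comp h2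
  rw [Real.sqrt_one] at h4
  have h5 := h1.add (h4.const_mul y)
  rw [zero_add, mul_one] at h5
  refine h5.congr' ?_
  filter_upwards [hM.eventually (eventually_gt_atTop 0), l2_tendsto.eventually (eventually_gt_atTop 0)]
    with N hN hN2
  unfold thr
  rw [Real.sqrt_div hN2.le, add_div, mul_div_assoc]

open Classical in
theorem count_eq (N : ℕ) (hN : 1 ≤ N) (P : ℕ → Prop) :
    (((Icc 1 N).filter (fun n => Odd n ∧ P n)).card : ℝ) =
      (if P 1 then 1 else 0) + ((Icc 1 ((N - 1) / 2)).filter (fun k => P (2 * k + 1))).card := by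
  have e : (Icc 1 N).filter (fun n => Odd n ∧ P n) =
      (if P 1 then {1} else ∅) ∪ ((Icc 1 ((N - 1) / 2)).filter (fun k => P (2 * k + 1))).image
        (fun k => 2 * k + 1) := by
    ext n
    simp only [mem_filter, mem_Icc, mem_union, mem_image]
    constructor
    · rintro ⟨⟨h1, h2⟩, ⟨k, hk⟩, h4⟩
      rcases Nat.eq_zero_or_pos k with rfl | hk0
      · left
        rw [hk] at h4 ⊢
        simp only [mul_zero, zero_add] at h4 ⊢
        rw [if_pos h4]
        exact mem_singleton_self _
      · right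
        exact ⟨k, ⟨⟨hk0, by omega⟩, hk ▸ h4⟩, hk.symm⟩
    · rintro (h | ⟨k, ⟨⟨hk1, hk2⟩, hk3⟩, rfl⟩)
      · split_ifs at h with h1
        · rw [mem_singleton] at h
          subst h
          exact ⟨⟨le_rfl, hN⟩, ⟨0, rfl⟩, h1⟩
        · exact absurd h (notMem_empty _)
      · exact ⟨⟨by omega, by omega⟩, ⟨k, rfl⟩, hk3⟩
  rw [e, card_union_of_disjoint, card_image_of_injective _ (fun a b h => by simpa using h)]
  · push_cast
    congr 1
    split_ifs <;> simp
  · rw [disjoint_left]
    intro n hn hn2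
    simp only [mem_image, mem_filter, mem_Icc] at hn2
    obtain ⟨k, ⟨⟨hk1, -⟩, -⟩, hk3⟩ := hn2
    split_ifs at hn with h1
    · rw [mem_singleton] at hn
      omega
    · exact absurd hn (notMem_empty _)

open Classical in
theorem ek_odd (h : ∃ C : ℝ, ∃ N0 : ℕ, ∀ N : ℕ, N0 ≤ N → ∀ x : ℝ,
      |(((Finset.Icc 1 N).filter (fun n : ℕ =>
          ((⌊(2 : ℝ) * n + 1⌋.toNat.primeFactors.card : ℝ) - Real.log (Real.log N)) /
            Real.sqrt (Real.log (Real.log N)) ≤ x)).card : ℝ) / N -
        (gaussianReal 0 1).real (Set.Iic x)| ≤ C / Real.sqrt (Real.log (Real.log N))) (y : ℝ) :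
    Tendsto (fun N : ℕ => (((Icc 1 N).filter (fun n => Odd n ∧ nom N n ≤ y)).card : ℝ) /
      ((Icc 1 N).filter (fun n => Odd n)).card) atTop (𝓝 ((gaussianReal 0 1).real (Set.Iic y))) := by
  obtain ⟨C, N0, hC⟩ := h
  set γ : ℝ → ℝ := fun x => (gaussianReal 0 1).real (Set.Iic x) with hγ
  set M : ℕ → ℕ := fun N => (N - 1) / 2 with hM
  have hMt : Tendsto M atTop atTop := half_tendsto
  set K : ℕ → ℝ := fun N => (((Icc 1 (M N)).filter (fun k => nom N (2 * k + 1) ≤ y)).card : ℝ) with hK
  have hfl : ∀ k : ℕ, ⌊(2 : ℝ) * k + 1⌋.toNat = 2 * k + 1 := by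
    intro k
    have : (2 : ℝ) * k + 1 = ((2 * k + 1 : ℕ) : ℝ) := by push_cast; ring
    rw [this, Int.floor_natCast, Int.toNat_natCast]
  -- the counts for odd numbers larger than one
  have h1 : Tendsto (fun N => K N / M N) atTop (𝓝 (γ y)) := by
    have hs : Tendsto (fun N : ℕ => C / Real.sqrt (l2 (M N))) atTop (𝓝 0) :=
      (Real.tendsto_sqrt_atTop.comp (l2_tendsto.comp hMt)).const_div_atTop C
    have h2 : Tendsto (fun N => K N / M N - γ (thr y N)) atTop (𝓝 0) := by
      refine squeeze_zero_norm' ?_ hs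
      filter_upwards [hMt.eventually (eventually_ge_atTop N0),
        (l2_tendsto.comp hMt).eventually (eventually_gt_atTop 0),
        l2_tendsto.eventually (eventually_gt_atTop 0)] with N hN hN2 hN3
      have h3 := hC (M N) hN (thr y N)
      rw [Real.norm_eq_abs]
      have e : (Icc 1 (M N)).filter (fun k => nom N (2 * k + 1) ≤ y) = (Finset.Icc 1 (M N)).filter
          (fun n : ℕ => ((⌊(2 : ℝ) * n + 1⌋.toNat.primeFactors.card : ℝ) - Real.log (Real.log (M N))) /
            Real.sqrt (Real.log (Real.log (M N))) ≤ thr y N) := by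
        refine Finset.filter_congr fun k _ => ?_
        rw [hfl k]
        have g1 : 0 < Real.sqrt (l2 N) := Real.sqrt_pos.2 hN3
        have g2 : 0 < Real.sqrt (l2 (M N)) := Real.sqrt_pos.2 hN2
        have a1 : nom N (2 * k + 1) ≤ y ↔ ((2 * k + 1).primeFactors.card : ℝ) - l2 N ≤ y * Real.sqrt (l2 N) := by
          unfold nom
          exact div_le_iff₀ g1
        have a2 : (((2 * k + 1).primeFactors.card : ℝ) - Real.log (Real.log (M N))) /
            Real.sqrt (Real.log (Real.log (M N))) ≤ thr y N ↔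
            ((2 * k + 1).primeFactors.card : ℝ) - l2 (M N) ≤ l2 N - l2 (M N) + y * Real.sqrt (l2 N) := by
          unfold thr
          exact div_le_div_iff_of_pos_right g2
        rw [a1, a2]
        constructor <;> intro h <;> linarith
      rw [hK]
      simp only
      rw [e]
      exact h3
    have h4 : Tendsto (fun N => γ (thr y N)) atTop (𝓝 (γ y)) :=
      (cdf_cont.tendsto y).comp (thr_tendsto y)
    have h5 := h2.add h4
    rw [zero_add] at h5
    exact h5.congr fun N => by ring
  have hMr : Tendsto (fun N => (M N : ℝ)) atTop atTop := tendsto_natCast_atTop_atTop.comp hMt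
  have h6 : Tendsto (fun N => (M N : ℝ) / (1 + M N)) atTop (𝓝 1) := by
    have h7 : Tendsto (fun N => 1 - 1 / (1 + (M N : ℝ))) atTop (𝓝 (1 - 0)) :=
      ((tendsto_atTop_add_const_left _ 1 hMr).const_div_atTop 1).const_sub 1
    rw [sub_zero] at h7
    refine h7.congr fun N => ?_
    have : (1 + (M N : ℝ)) ≠ 0 := by positivity
    field_simp
    ring
  have h8 : Tendsto (fun N => (if nom N 1 ≤ y then (1 : ℝ) else 0) / (1 + M N)) atTop (𝓝 0) := by
    have h9 : Tendsto (fun N => 1 / (1 + (M N : ℝ))) atTop (𝓝 0) :=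
      (tendsto_atTop_add_const_left _ 1 hMr).const_div_atTop 1
    refine squeeze_zero (fun N => by positivity) (fun N => ?_) h9
    refine div_le_div_of_nonneg_right ?_ (by positivity)
    split_ifs <;> norm_num
  have h10 := h8.add (h1.mul h6)
  rw [zero_add, mul_one] at h10
  refine h10.congr' ?_
  filter_upwards [eventually_ge_atTop 3] with N hN
  have hM0 : (M N : ℝ) ≠ 0 := by
    have : 1 ≤ M N := by rw [hM]; simp only; omega
    exact_mod_cast (by omega : M N ≠ 0)
  have c1 := count_eq N (by omega) (fun n => nom N n ≤ y)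
  have c2 := count_eq N (by omega) (fun _ => True)
  simp only [and_true, if_true, filter_true, Nat.card_Icc, Nat.add_sub_cancel] at c2
  have c3 : (((Icc 1 N).filter (fun n => Odd n)).card : ℝ) = 1 + (M N : ℝ) := by
    rw [← c2]
  rw [c1, c3, add_div]
  congr 1
  field_simp
  rfl

end Pool.Agent.L0h87.HA
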