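import Mathlib

set_option autoImplicit false

/-!
# Values of additive functions in abelian groups, detected by characters
-/

namespace Pool.Agent.L0h87.HA

open Finset

/-- unimodular multiplicative functions on the positive integers -/
def UM (v : ℕ → ℂ) : Prop :=
  (∀ n, 0 < n → ‖v n‖ = 1) ∧ ∀ m n, 0 < m → 0 < n → m.Coprime n → v (m * n) = v m * v n

/-- additive functions with values in an abelian group -/
def IsAdd {G : Type} [AddCommGroup G] (F : ℕ → G) : Prop :=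
  ∀ m n : ℕ, 0 < m → 0 < n → m.Coprime n → F (m * n) = F m + F n

/-- characters -/
def IsCh {G : Type} [AddCommGroup G] (ψ : G → ℂ) : Prop :=
  (∀ x, ‖ψ x‖ = 1) ∧ ∀ x y, ψ (x + y) = ψ x * ψ y

section

variable {G : Type} [AddCommGroup G]

theorem IsCh.zero {ψ : G → ℂ} (h : IsCh ψ) : ψ 0 = 1 := by
  have h1 := h.2 0 0
  rw [add_zero] at h1
  have h0 : ψ 0 ≠ 0 := by
    intro h2
    have := h.1 0
    rw [h2, norm_zero] at this
    exact zero_ne_one this
  refine mul_left_cancel₀ h0 ?_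
  rw [← h1, mul_one]

theorem IsCh.mul {ψ φ : G → ℂ} (h : IsCh ψ) (h' : IsCh φ) : IsCh (fun x => ψ x * φ x) := by
  refine ⟨fun x => by rw [norm_mul, h.1, h'.1, one_mul], fun x y => ?_⟩
  simp only
  rw [h.2, h'.2]
  ring

theorem IsCh.pow {ψ : G → ℂ} (h : IsCh ψ) (a : ℕ) : IsCh (fun x => ψ x ^ a) := by
  refine ⟨fun x => by rw [norm_pow, h.1, one_pow], fun x y => ?_⟩
  simp only
  rw [h.2, mul_pow]

theorem isCh_one : IsCh (fun _ : G => (1 : ℂ)) := ⟨fun _ => norm_one, fun _ _ => (one_mul 1).symm⟩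

theorem IsCh.comp {ψ : G → ℂ} (h : IsCh ψ) {F : ℕ → G} (hF : IsAdd F) : UM (fun n => ψ (F n)) :=
  ⟨fun _ _ => h.1 _, fun m n hm hn hc => by simp only; rw [hF m n hm hn hc, h.2]⟩

/-- the exponential on `ℚ / ℤ` -/
noncomputable def ee (q : ℚ) : ℂ := Complex.exp (2 * Real.pi * Complex.I * q)

theorem ee_add (a b : ℚ) : ee (a + b) = ee a * ee b := by
  unfold ee
  rw [← Complex.exp_add]
  congr 1
  push_cast
  ring

theorem ee_norm (a : ℚ) : ‖ee a‖ = 1 := by
  unfold ee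
  rw [show (2 * Real.pi * Complex.I * a : ℂ) = ((2 * Real.pi * a : ℝ) : ℂ) * Complex.I by push_cast; ring]
  exact Complex.norm_exp_ofReal_mul_I _

theorem ee_int (n : ℤ) : ee n = 1 := by
  unfold ee
  rw [show (2 * Real.pi * Complex.I * ((n : ℚ) : ℂ) : ℂ) = n * (2 * Real.pi * Complex.I) by push_cast; ring]
  exact Complex.exp_int_mul_two_pi_mul_I n

theorem ee_eq_one {q : ℚ} (h : ee q = 1) : ∃ n : ℤ, (n : ℚ) = q := by
  unfold ee at h
  rw [Complex.exp_eq_one_iff] at h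
  obtain ⟨n, hn⟩ := h
  refine ⟨n, ?_⟩
  have h1 : (2 * Real.pi * Complex.I : ℂ) ≠ 0 := Complex.two_pi_I_ne_zero
  have h2 : ((q : ℚ) : ℂ) = n := by
    apply mul_left_cancel₀ h1
    rw [hn]
    ring
  exact_mod_cast h2.symm

theorem ee_periodic : Function.Periodic ee (1 : ℚ) := by
  intro x
  rw [ee_add]
  have := ee_int 1
  rw [Int.cast_one] at this
  rw [this, mul_one]

theorem exists_ch {x : G} (hx : x ≠ 0) : ∃ ψ : G → ℂ, IsCh ψ ∧ ψ x ≠ 1 ∧ ∃ M : ℕ, 0 < M ∧ ψ x ^ M = 1 := by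
  obtain ⟨c, hc⟩ := CharacterModule.exists_character_apply_ne_zero_of_ne_zero hx
  set E : AddCircle (1 : ℚ) → ℂ := ee_periodic.lift with hE
  have hEc : ∀ q : ℚ, E (q : AddCircle (1 : ℚ)) = ee q := fun q => ee_periodic.lift_coe q
  have hrep : ∀ z : AddCircle (1 : ℚ), ∃ q : ℚ, (q : AddCircle (1 : ℚ)) = z := fun z =>
    QuotientAddGroup.mk_surjective z
  have hadd : ∀ y z, E (y + z) = E y * E z := by
    intro y z
    obtain ⟨a, rfl⟩ := hrep y
    obtain ⟨b, rfl⟩ := hrep z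
    rw [← AddCircle.coe_add, hEc, hEc, hEc, ee_add]
  refine ⟨fun y => E (c y), ⟨fun y => ?_, fun y z => ?_⟩, ?_, ?_⟩
  · obtain ⟨a, ha⟩ := hrep (c y)
    simp only
    rw [← ha, hEc, ee_norm]
  · simp only
    rw [map_add, hadd]
  · obtain ⟨a, ha⟩ := hrep (c x)
    intro h1
    apply hc
    simp only at h1
    rw [← ha, hEc] at h1
    obtain ⟨n, hn⟩ := ee_eq_one h1
    rw [← ha, ← hn]
    rw [AddCircle.coe_eq_zero_iff]
    exact ⟨n, by simp⟩
  · obtain ⟨a, ha⟩ := hrep (c x)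
    refine ⟨a.den, a.den_pos, ?_⟩
    simp only
    rw [← ha, hEc]
    unfold ee
    rw [← Complex.exp_nat_mul]
    have h1 : ((a.den : ℂ)) * (2 * Real.pi * Complex.I * (a : ℂ)) = (a.num : ℂ) * (2 * Real.pi * Complex.I) := by
      have h2 : (a.den : ℚ) * a = a.num := Rat.den_mul_eq_num a
      have h3 : (a.den : ℂ) * (a : ℂ) = (a.num : ℂ) := by exact_mod_cast h2
      rw [← h3]
      ring
    rw [h1]
    exact Complex.exp_int_mul_two_pi_mul_I _

end

/-- the functions of the additive function which are averages of characters -/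
theorem exists_weight {G : Type} [AddCommGroup G] {F : ℕ → G} {k : G} {S : Finset ℕ}
    {w : ℕ → ℂ} {K : ℝ} (H : ∀ ψ : G → ℂ, IsCh ψ → ‖∑ n ∈ S, w n * ψ (F n)‖ ≤ K) (D : Finset G)
    (hD : ∀ x ∈ D, x ≠ 0) : ∃ u : G → ℂ, u 0 = 1 ∧ (∀ x ∈ D, u x = 0) ∧
      ∀ ψ : G → ℂ, IsCh ψ → ‖∑ n ∈ S, w n * u (F n - k) * ψ (F n)‖ ≤ K := by
  classical
  induction D using Finset.induction_on with
  | empty =>
    refine ⟨fun _ => 1, rfl, fun x hx => absurd hx (Finset.notMem_empty x), fun ψ hψ => ?_⟩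
    simpa using H ψ hψ
  | insert x D hx ih =>
    obtain ⟨u, u0, uD, uK⟩ := ih fun y hy => hD y (mem_insert_of_mem hy)
    obtain ⟨φ, hφ, hφ1, M, hM, hφM⟩ := exists_ch (hD x (mem_insert_self _ _))
    have hM0 : (M : ℂ) ≠ 0 := by exact_mod_cast hM.ne'
    refine ⟨fun y => u y * ((M : ℂ)⁻¹ * ∑ a ∈ range M, φ y ^ a), ?_, ?_, ?_⟩
    · simp only
      rw [u0, hφ.zero]
      simp [hM0]
    · intro y hy
      rcases mem_insert.1 hy with rfl | hy
      · have : ∑ a ∈ range M, φ y ^ a = 0 := by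
          have h1 := mul_geom_sum (φ y) M
          rw [hφM, sub_self] at h1
          rcases mul_eq_zero.1 h1 with h2 | h2
          · exact absurd (sub_eq_zero.1 h2) hφ1
          · exact h2
        simp only
        rw [this, mul_zero, mul_zero]
      · simp only
        rw [uD y hy, zero_mul]
    · intro ψ hψ
      have e : ∑ n ∈ S, w n * (u (F n - k) * ((M : ℂ)⁻¹ * ∑ a ∈ range M, φ (F n - k) ^ a)) * ψ (F n) =
          (M : ℂ)⁻¹ * ∑ a ∈ range M, φ (-k) ^ a * ∑ n ∈ S, w n * u (F n - k) * (φ (F n) ^ a * ψ (F n)) := by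
        simp_rw [Finset.mul_sum]
        rw [Finset.sum_comm]
        refine Finset.sum_congr rfl fun n _ => ?_
        rw [Finset.sum_mul]
        refine Finset.sum_congr rfl fun a _ => ?_
        rw [sub_eq_add_neg, hφ.2, mul_pow]
        ring
      simp only
      rw [e, norm_mul, norm_inv, Complex.norm_natCast]
      have h2 : ‖∑ a ∈ range M, φ (-k) ^ a * ∑ n ∈ S, w n * u (F n - k) * (φ (F n) ^ a * ψ (F n))‖ ≤
          ∑ a ∈ range M, K := by
        refine norm_sum_le_of_le _ fun a _ => ?_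
        rw [norm_mul, norm_pow, hφ.1, one_pow, one_mul]
        exact uK _ ((hφ.pow a).mul hψ)
      rw [Finset.sum_const, card_range, nsmul_eq_mul] at h2
      have hMr : (0 : ℝ) < M := by exact_mod_cast hM
      rw [inv_mul_le_iff₀ hMr]
      exact h2

open Classical in
/-- the sum over the integers with a given value of an additive function -/
theorem group_case {G : Type} [AddCommGroup G] {F : ℕ → G} (hF : IsAdd F) (k : G) {S : Finset ℕ}
    {w : ℕ → ℂ} {K : ℝ} (H : ∀ v : ℕ → ℂ, UM v → ‖∑ n ∈ S, w n * v n‖ ≤ K) :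
    ‖∑ n ∈ S.filter (fun n => F n = k), w n‖ ≤ K := by
  obtain ⟨u, u0, uD, uK⟩ := exists_weight (F := F) (k := k) (S := S) (w := w) (K := K)
    (fun ψ hψ => H _ (hψ.comp hF)) (((S.image fun n => F n - k)).filter (fun y => y ≠ 0))
    (fun x hx => (mem_filter.1 hx).2)
  have h1 := uK _ isCh_one
  have e : ∑ n ∈ S.filter (fun n => F n = k), w n = ∑ n ∈ S, w n * u (F n - k) * 1 := by
    rw [Finset.sum_filter]
    refine Finset.sum_congr rfl fun n hn => ?_
    split_ifs with h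
    · rw [h, sub_self, u0]; ring
    · rw [uD (F n - k) (mem_filter.2 ⟨mem_image_of_mem _ hn, sub_ne_zero.2 h⟩)]
      ring
  rw [e]
  exact h1

end Pool.Agent.L0h87.HA
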