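import Pool.Agent.L0h87.HA.Grp

set_option autoImplicit false

/-!
# Weighted limit laws from characteristic functions
-/

namespace Pool.Agent.L0h87.HA

open Finset Filter Topology MeasureTheory
open scoped RealInnerProductSpace BoundedContinuousFunction

variable {d : ℕ}

/-- the space of the values -/
abbrev Vec (d : ℕ) : Type := EuclideanSpace ℝ (Fin d)

/-- the weighted measure -/
noncomputable def wm (S : Finset ℕ) (W : ℕ → ℝ) (X : ℕ → Vec d) : Measure (Vec d) :=
  ∑ n ∈ S, ENNReal.ofReal (W n) • Measure.dirac (X n)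

theorem wm_integral {E : Type} [NormedAddCommGroup E] [NormedSpace ℝ E] [CompleteSpace E]
    {S : Finset ℕ} {W : ℕ → ℝ} (hW : ∀ n ∈ S, 0 ≤ W n) (X : ℕ → Vec d) (Ψ : Vec d → E) :
    ∫ x, Ψ x ∂(wm S W X) = ∑ n ∈ S, W n • Ψ (X n) := by
  unfold wm
  rw [integral_finsetSum_measure]
  · refine Finset.sum_congr rfl fun n hn => ?_
    rw [integral_smul_measure, integral_dirac, ENNReal.toReal_ofReal (hW n hn)]
  · intro n _
    refine Integrable.smul_measure ?_ ENNReal.ofReal_ne_top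
    exact integrable_dirac (by simp [enorm_lt_top])

theorem wm_apply (S : Finset ℕ) (W : ℕ → ℝ) (X : ℕ → Vec d) {B : Set (Vec d)} (hB : MeasurableSet B) :
    wm S W X B = ∑ n ∈ S, ENNReal.ofReal (W n) * B.indicator 1 (X n) := by
  unfold wm
  rw [Measure.finsetSum_apply]
  refine Finset.sum_congr rfl fun n _ => ?_
  rw [Measure.smul_apply, Measure.dirac_apply' _ hB, smul_eq_mul]

open Classical in
theorem wm_toReal {S : Finset ℕ} {W : ℕ → ℝ} (hW : ∀ n ∈ S, 0 ≤ W n) (X : ℕ → Vec d) {B : Set (Vec d)}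
    (hB : MeasurableSet B) : (wm S W X B).toReal = ∑ n ∈ S.filter (fun n => X n ∈ B), W n := by
  rw [wm_apply S W X hB, ENNReal.toReal_sum, Finset.sum_filter]
  · refine Finset.sum_congr rfl fun n hn => ?_
    by_cases h : X n ∈ B
    · rw [Set.indicator_of_mem h, if_pos h]
      simp [ENNReal.toReal_ofReal (hW n hn)]
    · rw [Set.indicator_of_notMem h, if_neg h]
      simp
  · intro n _
    by_cases h : X n ∈ B
    · rw [Set.indicator_of_mem h]
      simp
    · rw [Set.indicator_of_notMem h]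
      simp

theorem wm_prob {S : Finset ℕ} {W : ℕ → ℝ} (hW : ∀ n ∈ S, 0 ≤ W n) (X : ℕ → Vec d)
    (h1 : ∑ n ∈ S, W n = 1) : IsProbabilityMeasure (wm S W X) := by
  refine ⟨?_⟩
  rw [wm_apply S W X MeasurableSet.univ]
  have : ∑ n ∈ S, ENNReal.ofReal (W n) * (Set.univ : Set (Vec d)).indicator 1 (X n) =
      ∑ n ∈ S, ENNReal.ofReal (W n) := by
    refine Finset.sum_congr rfl fun n _ => ?_
    simp
  rw [this, ← ENNReal.ofReal_sum_of_nonneg hW, h1, ENNReal.ofReal_one]

/-- the hypothesis: weighted and unweighted means of unimodular multiplicative functions are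
proportional -/
def Prop1 (S : ℕ → Finset ℕ) (W : ℕ → ℕ → ℝ) (V : ℝ) : Prop :=
  ∀ v : ℕ → ℕ → ℂ, (∀ N, UM (v N)) → Tendsto (fun N => (∑ n ∈ S N, (W N n : ℂ) * v N n) / (S N).card -
    V * ((∑ n ∈ S N, v N n) / (S N).card)) atTop (𝓝 0)

/-- the law of `X N n`, `n` in `S N`, converges to `ν` -/
def Conv (S : ℕ → Finset ℕ) (X : ℕ → ℕ → Vec d) (ν : Measure (Vec d)) : Prop :=
  ∀ Ψ : Vec d →ᵇ ℝ, Tendsto (fun N => (∑ n ∈ S N, Ψ (X N n)) / (S N).card) atTop (𝓝 (∫ x, Ψ x ∂ν))

theorem um_exp {f : ℕ → Vec d} (hf : IsAdd f) (t : Vec d) :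
    UM (fun n => Complex.exp (⟪f n, t⟫ * Complex.I)) := by
  refine ⟨fun n _ => Complex.norm_exp_ofReal_mul_I _, fun m n hm hn hc => ?_⟩
  simp only
  rw [hf m n hm hn hc, inner_add_left, ← Complex.exp_add]
  congr 1
  push_cast
  ring

theorem um_one : UM (fun _ => 1) := ⟨fun _ _ => norm_one, fun _ _ _ _ _ => (one_mul 1).symm⟩

section

variable {S : ℕ → Finset ℕ} {W : ℕ → ℕ → ℝ} {V : ℝ} {ν : Measure (Vec d)} [IsProbabilityMeasure ν]
  {f : ℕ → ℕ → Vec d} {A : ℕ → Vec d}

theorem mass (h1 : Prop1 S W V) (hS : ∀ᶠ N in atTop, (S N).Nonempty) :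
    Tendsto (fun N => (∑ n ∈ S N, W N n) / (S N).card) atTop (𝓝 V) := by
  have h := h1 (fun _ _ => 1) (fun _ => um_one)
  have h2 : Tendsto (fun N => (((∑ n ∈ S N, W N n) / (S N).card - V : ℝ) : ℂ)) atTop (𝓝 0) := by
    refine h.congr' ?_
    filter_upwards [hS] with N hN
    have h0 : ((S N).card : ℂ) ≠ 0 := by
      have := hN.card_pos
      exact_mod_cast this.ne'
    push_cast
    simp [h0]
  have h3 : Tendsto (fun N => (∑ n ∈ S N, W N n) / (S N).card - V) atTop (𝓝 0) := by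
    have := (Complex.continuous_re.tendsto 0).comp h2
    simpa [Function.comp_def] using this
  simpa using h3.add_const V

theorem char_conv (hf : ∀ N, IsAdd (f N)) (hc : Conv S (fun N n => f N n - A N) ν) (t : Vec d) :
    Tendsto (fun N => (∑ n ∈ S N, Complex.exp (⟪f N n - A N, t⟫ * Complex.I)) / (S N).card) atTop
      (𝓝 (charFun ν t)) := by
  set c : Vec d →ᵇ ℝ := BoundedContinuousFunction.ofNormedAddCommGroup (fun x => Real.cos ⟪x, t⟫)
    (by fun_prop) 1 (fun x => by rw [Real.norm_eq_abs]; exact Real.abs_cos_le_one _) with hcdef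
  set s : Vec d →ᵇ ℝ := BoundedContinuousFunction.ofNormedAddCommGroup (fun x => Real.sin ⟪x, t⟫)
    (by fun_prop) 1 (fun x => by rw [Real.norm_eq_abs]; exact Real.abs_sin_le_one _) with hsdef
  have h1 := (hc c).ofReal
  have h2 := ((hc s).ofReal).mul_const Complex.I
  have h3 := h1.add h2
  have e : charFun ν t = ((∫ x, c x ∂ν : ℝ) : ℂ) + ((∫ x, s x ∂ν : ℝ) : ℂ) * Complex.I := by
    have e1 : ((∫ x, c x ∂ν : ℝ) : ℂ) = ∫ x, ((c x : ℝ) : ℂ) ∂ν := (integral_ofReal (𝕜 := ℂ)).symm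
    have e2 : ((∫ x, s x ∂ν : ℝ) : ℂ) = ∫ x, ((s x : ℝ) : ℂ) ∂ν := (integral_ofReal (𝕜 := ℂ)).symm
    rw [charFun_apply, e1, e2, ← integral_mul_const, ← integral_add]
    · refine integral_congr_ae (ae_of_all _ fun x => ?_)
      simp only [hcdef, hsdef, BoundedContinuousFunction.coe_ofNormedAddCommGroup]
      rw [Complex.exp_mul_I]
      simp
    · exact (c.integrable ν).ofReal
    · exact ((s.integrable ν).ofReal).mul_const _
  rw [e]
  refine h3.congr fun N => ?_
  push_cast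
  rw [div_mul_eq_mul_div, ← add_div, Finset.sum_mul, ← Finset.sum_add_distrib]
  congr 1
  refine Finset.sum_congr rfl fun n _ => ?_
  simp only [hcdef, hsdef, BoundedContinuousFunction.coe_ofNormedAddCommGroup]
  rw [Complex.exp_mul_I]
  simp

theorem char_conv_w (h1 : Prop1 S W V) (hf : ∀ N, IsAdd (f N)) (hc : Conv S (fun N n => f N n - A N) ν)
    (t : Vec d) :
    Tendsto (fun N => (∑ n ∈ S N, (W N n : ℂ) * Complex.exp (⟪f N n - A N, t⟫ * Complex.I)) / (S N).card)
      atTop (𝓝 (V * charFun ν t)) := by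
  have h2 := h1 (fun N n => Complex.exp (⟪f N n, t⟫ * Complex.I)) (fun N => um_exp (hf N) t)
  have h3 := (char_conv hf hc t).const_mul (V : ℂ)
  have h4 : Tendsto (fun N => Complex.exp (-(⟪A N, t⟫ * Complex.I)) *
      ((∑ n ∈ S N, (W N n : ℂ) * Complex.exp (⟪f N n, t⟫ * Complex.I)) / (S N).card -
      V * ((∑ n ∈ S N, Complex.exp (⟪f N n, t⟫ * Complex.I)) / (S N).card))) atTop (𝓝 0) := by
    rw [tendsto_zero_iff_norm_tendsto_zero] at h2 ⊢
    refine h2.congr fun N => ?_
    rw [norm_mul, show -(((⟪A N, t⟫ : ℝ) : ℂ) * Complex.I) = ((-⟪A N, t⟫ : ℝ) : ℂ) * Complex.I by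
      push_cast; ring, Complex.norm_exp_ofReal_mul_I, one_mul]
  have h5 := h4.add h3
  rw [zero_add] at h5
  refine h5.congr fun N => ?_
  have key : ∀ n, Complex.exp (⟪f N n - A N, t⟫ * Complex.I) =
      Complex.exp (-(⟪A N, t⟫ * Complex.I)) * Complex.exp (⟪f N n, t⟫ * Complex.I) := by
    intro n
    rw [← Complex.exp_add, inner_sub_left]
    congr 1
    push_cast
    ring
  have e1 : ∑ n ∈ S N, (W N n : ℂ) * Complex.exp (⟪f N n - A N, t⟫ * Complex.I) =
      Complex.exp (-(⟪A N, t⟫ * Complex.I)) * ∑ n ∈ S N, (W N n : ℂ) * Complex.exp (⟪f N n, t⟫ * Complex.I) := by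
    rw [Finset.mul_sum]
    refine Finset.sum_congr rfl fun n _ => ?_
    rw [key n]; ring
  have e2 : ∑ n ∈ S N, Complex.exp (⟪f N n - A N, t⟫ * Complex.I) =
      Complex.exp (-(⟪A N, t⟫ * Complex.I)) * ∑ n ∈ S N, Complex.exp (⟪f N n, t⟫ * Complex.I) := by
    rw [Finset.mul_sum]
    exact Finset.sum_congr rfl fun n _ => key n
  rw [e1, e2]
  ring

/-- the weighted laws -/
theorem limit_law (hW : ∀ᶠ N in atTop, ∀ n ∈ S N, 0 ≤ W N n) (h1 : Prop1 S W V)
    (hS : ∀ᶠ N in atTop, (S N).Nonempty) (hf : ∀ N, IsAdd (f N))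
    (hc : Conv S (fun N n => f N n - A N) ν) :
    (∀ Ψ : Vec d →ᵇ ℝ, Tendsto (fun N => (∑ n ∈ S N, W N n * Ψ (f N n - A N)) / (S N).card) atTop
      (𝓝 (V * ∫ x, Ψ x ∂ν))) ∧
    ∀ B : Set (Vec d), MeasurableSet B → ν (frontier B) = 0 → ∀ [∀ N, DecidablePred fun n => f N n - A N ∈ B],
      Tendsto (fun N => (∑ n ∈ (S N).filter (fun n => f N n - A N ∈ B), W N n) / (S N).card) atTop
      (𝓝 (V * (ν B).toReal)) := by
  classical
  have hm := mass h1 hS
  have hV0 : 0 ≤ V := by
    refine ge_of_tendsto hm ?_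
    filter_upwards [hW] with N hN
    exact div_nonneg (Finset.sum_nonneg hN) (Nat.cast_nonneg _)
  rcases hV0.eq_or_lt with hV | hV
  · rw [← hV] at hm ⊢
    simp only [zero_mul]
    refine ⟨fun Ψ => ?_, fun B hB hfr _ => ?_⟩
    · rw [tendsto_zero_iff_norm_tendsto_zero]
      have h5 := hm.const_mul ‖Ψ‖
      rw [mul_zero] at h5
      refine squeeze_zero' (Eventually.of_forall fun N => norm_nonneg _) ?_ h5
      filter_upwards [hW] with N hN
      rw [norm_div, Real.norm_natCast, mul_div_assoc']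
      refine div_le_div_of_nonneg_right ?_ (Nat.cast_nonneg _)
      rw [Finset.mul_sum]
      refine norm_sum_le_of_le _ fun n hn => ?_
      rw [norm_mul, Real.norm_of_nonneg (hN n hn), mul_comm]
      exact mul_le_mul_of_nonneg_right (Ψ.norm_coe_le_norm _) (hN n hn)
    · refine squeeze_zero' ?_ ?_ hm
      · filter_upwards [hW] with N hN
        exact div_nonneg (Finset.sum_nonneg fun n hn => hN n (mem_filter.1 hn).1) (Nat.cast_nonneg _)
      · filter_upwards [hW] with N hN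
        refine div_le_div_of_nonneg_right ?_ (Nat.cast_nonneg _)
        exact Finset.sum_le_sum_of_subset_of_nonneg (filter_subset _ _) fun n hn _ => hN n hn
  · set T : ℕ → ℝ := fun N => ∑ n ∈ S N, W N n with hT
    have hTpos : ∀ᶠ N in atTop, 0 < T N ∧ (S N).Nonempty ∧ ∀ n ∈ S N, 0 ≤ W N n := by
      filter_upwards [hm.eventually (lt_mem_nhds hV), hS, hW] with N h1 h2 h3
      refine ⟨?_, h2, h3⟩
      by_contra hn
      have : (∑ n ∈ S N, W N n) / (S N).card ≤ 0 :=
        div_nonpos_of_nonpos_of_nonneg (not_lt.1 hn) (Nat.cast_nonneg _)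
      linarith
    -- the probability measures
    have hprob : ∀ N, ∃ ρ : ProbabilityMeasure (Vec d), (0 < T N ∧ (∀ n ∈ S N, 0 ≤ W N n)) →
        (ρ : Measure (Vec d)) = wm (S N) (fun n => W N n / T N) (fun n => f N n - A N) := by
      intro N
      by_cases h : 0 < T N ∧ (∀ n ∈ S N, 0 ≤ W N n)
      · exact ⟨⟨wm (S N) (fun n => W N n / T N) (fun n => f N n - A N),
          wm_prob (fun n hn => div_nonneg (h.2 n hn) h.1.le) _
            (by rw [← Finset.sum_div]; exact div_self h.1.ne')⟩, fun _ => rfl⟩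
      · exact ⟨⟨Measure.dirac 0, inferInstance⟩, fun h' => absurd h' h⟩
    choose ρ hρ using hprob
    have hlim : Tendsto ρ atTop (𝓝 (⟨ν, inferInstance⟩ : ProbabilityMeasure (Vec d))) := by
      refine ProbabilityMeasure.tendsto_of_tendsto_charFun fun t => ?_
      have h6 := (char_conv_w h1 hf hc t).div (hm.ofReal) (by exact_mod_cast hV.ne')
      rw [mul_div_cancel_left₀ _ (show (V : ℂ) ≠ 0 by exact_mod_cast hV.ne')] at h6
      refine h6.congr' ?_
      filter_upwards [hTpos] with N ⟨hN1, hN2, hN3⟩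
      rw [hρ N ⟨hN1, hN3⟩, charFun_apply, wm_integral (fun n hn => div_nonneg (hN3 n hn) hN1.le)]
      have hs0 : ((S N).card : ℂ) ≠ 0 := by
        have := hN2.card_pos
        exact_mod_cast this.ne'
      have hT0 : ((T N : ℝ) : ℂ) ≠ 0 := by exact_mod_cast hN1.ne'
      have e3 : (((∑ n ∈ S N, W N n) / (S N).card : ℝ) : ℂ) = (T N : ℂ) / (S N).card := by
        rw [hT]; push_cast; rfl
      simp only [Pi.div_apply]
      rw [e3, div_div_div_cancel_right₀ hs0, Finset.sum_div]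
      refine Finset.sum_congr rfl fun n _ => ?_
      rw [Complex.real_smul]
      push_cast
      ring
    refine ⟨fun Ψ => ?_, fun B hB hfr _ => ?_⟩
    · have h7 := (ProbabilityMeasure.tendsto_iff_forall_integral_tendsto.1 hlim) Ψ
      have h8 := hm.mul h7
      refine h8.congr' ?_
      filter_upwards [hTpos] with N ⟨hN1, hN2, hN3⟩
      rw [hρ N ⟨hN1, hN3⟩, wm_integral (fun n hn => div_nonneg (hN3 n hn) hN1.le)]
      rw [div_mul_eq_mul_div]
      congr 1
      rw [show (∑ n ∈ S N, W N n) = T N from rfl, Finset.mul_sum]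
      refine Finset.sum_congr rfl fun n _ => ?_
      rw [smul_eq_mul]
      field_simp
    · have h7 := ProbabilityMeasure.tendsto_measure_of_null_frontier_of_tendsto' hlim
        (E := B) hfr
      have h7' := (ENNReal.tendsto_toReal (measure_ne_top ν B)).comp h7
      have h8 := hm.mul h7'
      refine h8.congr' ?_
      filter_upwards [hTpos] with N ⟨hN1, hN2, hN3⟩
      simp only [Function.comp_apply]
      rw [hρ N ⟨hN1, hN3⟩, wm_toReal (fun n hn => div_nonneg (hN3 n hn) hN1.le) _ hB]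
      rw [div_mul_eq_mul_div]
      congr 1
      rw [show (∑ n ∈ S N, W N n) = T N from rfl, Finset.mul_sum]
      refine Finset.sum_congr (by ext n; simp only [mem_filter]) fun n _ => ?_
      field_simp

end

end Pool.Agent.L0h87.HA
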